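import Pool.Agent.H39.Newt2.Base

/-! # NEWTON2, module FNR: finiteness of a region without directions at infinity -/

set_option autoImplicit false

namespace Pool.Newt2

open MvPolynomial Pool.Agent.H39.MonoR Pool.Agent.H75.Mono Pool.Newt

theorem sFnr : SFnr := by
  classical
  intro σ I _ _ a Sl c h
  by_contra hne
  push Not at hne
  -- a point with large `N`
  have h1 : ∀ N0 : ℕ, ∃ p : (σ → ℤ) × ℕ, N0 ≤ p.2 ∧ (∀ ξ, -(c : ℤ) ≤ lam a p.1 p.2 ξ) ∧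
      ∀ ξ ∈ Sl, lam a p.1 p.2 ξ ≤ c := by
    intro N0
    obtain ⟨u, N, hN, h2, h3⟩ := hne N0
    exact ⟨(u, N), hN, h2, h3.1⟩
  choose g hg1 hg2 hg3 using h1
  let s : ℕ → (σ → ℤ) × ℕ := fun n => Nat.rec (g 0) (fun _ p => g (p.2 + 1)) n
  have hs : ∀ n, ∃ N0, s n = g N0 := by
    intro n
    cases n with
    | zero => exact ⟨0, rfl⟩
    | succ n => exact ⟨(s n).2 + 1, rfl⟩
  have hmono : StrictMono fun n => (s n).2 := by
    apply strictMono_nat_of_lt_succ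
    intro n
    have := hg1 ((s n).2 + 1)
    have e : s (n + 1) = g ((s n).2 + 1) := rfl
    show (s n).2 < (s (n + 1)).2
    rw [e]
    omega
  have hs2 : ∀ n ξ, -(c : ℤ) ≤ lam a (s n).1 (s n).2 ξ := by
    intro n ξ
    obtain ⟨N0, e⟩ := hs n
    rw [e]
    exact hg2 N0 ξ
  have hs3 : ∀ n, ∀ ξ ∈ Sl, lam a (s n).1 (s n).2 ξ ≤ c := by
    intro n ξ hξ
    obtain ⟨N0, e⟩ := hs n
    rw [e]
    exact hg3 N0 ξ hξ
  let v : ℕ → (Co σ I ⊕ Co σ I) → ℕ := fun n => Sum.elim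
    (fun ξ => (lam a (s n).1 (s n).2 ξ + c).toNat)
    (fun ξ => if ξ ∈ Sl then ((c : ℤ) - lam a (s n).1 (s n).2 ξ).toNat else 0)
  obtain ⟨m, n, hmn, hle⟩ := wellQuasiOrdered_le (α := (Co σ I ⊕ Co σ I) → ℕ) v
  have hup : ∀ ξ, lam a (s m).1 (s m).2 ξ ≤ lam a (s n).1 (s n).2 ξ := by
    intro ξ
    have h4 : (lam a (s m).1 (s m).2 ξ + c).toNat ≤ (lam a (s n).1 (s n).2 ξ + c).toNat :=
      hle (Sum.inl ξ)
    have h5 := hs2 m ξ
    have h6 := hs2 n ξ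
    omega
  have hdown : ∀ ξ ∈ Sl, lam a (s n).1 (s n).2 ξ ≤ lam a (s m).1 (s m).2 ξ := by
    intro ξ hξ
    have h4 : (if ξ ∈ Sl then ((c : ℤ) - lam a (s m).1 (s m).2 ξ).toNat else 0) ≤
        (if ξ ∈ Sl then ((c : ℤ) - lam a (s n).1 (s n).2 ξ).toNat else 0) := hle (Sum.inr ξ)
    rw [if_pos hξ, if_pos hξ] at h4
    have h5 := hs3 m ξ hξ
    have h6 := hs3 n ξ hξ
    omega
  have hlt : (s m).2 < (s n).2 := hmono hmn
  -- the direction
  let w : σ → ℕ := fun l => ((s n).1 l - (s m).1 l).toNat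
  have hw : (fun l => (w l : ℤ)) = fun l => (s n).1 l - (s m).1 l := by
    funext l
    have h4 : (s m).1 l ≤ (s n).1 l := hup (some (Sum.inl l))
    show (((s n).1 l - (s m).1 l).toNat : ℤ) = _
    omega
  have hlam : ∀ ξ, lam a (fun l => (w l : ℤ)) ((s n).2 - (s m).2 : ℕ) ξ =
      lam a (s n).1 (s n).2 ξ - lam a (s m).1 (s m).2 ξ := by
    intro ξ
    rw [hw, Nat.cast_sub hlt.le]
    exact lam_sub a _ _ _ _ ξ
  have := h w ((s n).2 - (s m).2) (fun ξ => by rw [hlam]; have := hup ξ; omega)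
    (fun ξ hξ => by rw [hlam]; have h7 := hup ξ; have h8 := hdown ξ hξ; omega)
  omega

end Pool.Newt2
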