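import Pool.Agent.H39.Newt2.Base

/-! # NEWTON2, module TEL: multiplication by `1 - X^|w| T^m` -/

set_option autoImplicit false

namespace Pool.Newt2

open MvPolynomial Pool.Agent.H39.MonoR Pool.Agent.H75.Mono Pool.Newt

/-- translation of a lattice sum -/
theorem TEL_shift {σ : Type} [Fintype σ] (X : ℝ) (hX : 0 < X) (w : σ → ℤ) (F : (σ → ℤ) → ℝ) :
    X ^ (∑ l, w l) * ∑' u : σ → ℤ, F u * X ^ (∑ l, u l) =
      ∑' u : σ → ℤ, F (fun l => u l - w l) * X ^ (∑ l, u l) := by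
  rw [← tsum_mul_left]
  rw [← (Equiv.subRight w).tsum_eq (fun u => X ^ (∑ l, w l) * (F u * X ^ (∑ l, u l)))]
  apply tsum_congr
  intro u
  have e : (Equiv.subRight w) u = fun l => u l - w l := rfl
  rw [e]
  have e2 : ∑ l, u l = (∑ l, w l) + ∑ l, (u l - w l) := by
    rw [Finset.sum_sub_distrib]
    ring
  rw [e2, zpow_add₀ hX.ne']
  ring

theorem sTel (hSum : SSum) (hTea : STea) : STel := by
  classical
  intro σ I _ _ a X hX0 hX1 w m c φ hφ hnone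
  obtain ⟨Φ, hΦ1, hΦ2, hΦ3⟩ := hTea (Co σ I) (fun ξ => lam a (fun l => (w l : ℤ)) m ξ) φ
  refine ⟨Φ, ?_, fun ξ => ⟨hΦ2 ξ, fun ξ' => hΦ3 ξ ξ'⟩⟩
  -- a bound for the shifts
  obtain ⟨B, hB⟩ : ∃ B : ℕ, ∀ ξ : Co σ I, (lam a (fun l => (w l : ℤ)) m ξ).natAbs ≤ B := by
    refine ⟨∑ ξ : Co σ I, (lam a (fun l => (w l : ℤ)) m ξ).natAbs, fun ξ => ?_⟩
    exact Finset.single_le_sum (f := fun ξ : Co σ I => (lam a (fun l => (w l : ℤ)) m ξ).natAbs)
      (fun _ _ => Nat.zero_le _) (Finset.mem_univ ξ)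
  have hThr : ∀ ξ ξ', Thr (c + B) (Φ ξ ξ') := fun ξ ξ' => (hφ ξ').var (hB ξ') (hΦ3 ξ ξ')
  have hThr2 : ∀ ξ, Thr (c + B) (fun v => φ ξ (v - lam a (fun l => (w l : ℤ)) m ξ)) :=
    fun ξ => (hφ ξ).shift (hB ξ)
  ext N
  -- the shifted sum
  have hshift : X ^ (∑ l, w l) * (if m ≤ N then PowerSeries.coeff (N - m) (Ser a X φ) else 0) =
      ∑' u : σ → ℤ, (∏ ξ, φ ξ (lam a u N ξ - lam a (fun l => (w l : ℤ)) m ξ)) *
        X ^ (∑ l, u l) := by
    by_cases hm : m ≤ N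
    · rw [if_pos hm]
      have e1 : (X : ℝ) ^ (∑ l, w l) = X ^ (∑ l, (w l : ℤ)) := by
        rw [← Nat.cast_sum, zpow_natCast]
      rw [e1]
      unfold Ser
      rw [PowerSeries.coeff_mk]
      rw [TEL_shift X hX0 (fun l => (w l : ℤ))
        (fun u => ∏ ξ, φ ξ (lam a u ((N - m : ℕ) : ℤ) ξ))]
      apply tsum_congr
      intro u
      congr 1
      apply Finset.prod_congr rfl
      intro ξ _
      rw [Nat.cast_sub hm, lam_sub]
    · rw [if_neg hm, mul_zero]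
      symm
      rw [← tsum_zero (α := ℝ) (β := σ → ℤ)]
      apply tsum_congr
      intro u
      have : ∏ ξ, φ ξ (lam a u N ξ - lam a (fun l => (w l : ℤ)) m ξ) = 0 := by
        apply Finset.prod_eq_zero (Finset.mem_univ none)
        apply hnone
        show (N : ℤ) - (m : ℤ) ≤ 0
        omega
      rw [this, zero_mul]
  have hleft : PowerSeries.coeff N
      ((1 - PowerSeries.C (X ^ (∑ l, w l)) * PowerSeries.X ^ m) * Ser a X φ) =
      PowerSeries.coeff N (Ser a X φ) -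
        X ^ (∑ l, w l) * (if m ≤ N then PowerSeries.coeff (N - m) (Ser a X φ) else 0) := by
    rw [sub_mul, one_mul, map_sub, mul_assoc, PowerSeries.coeff_C_mul,
      PowerSeries.coeff_X_pow_mul']
  rw [hleft, hshift, map_sum]
  have hS1 : Summable fun u : σ → ℤ => (∏ ξ, φ ξ (lam a u N ξ)) * X ^ (∑ l, u l) :=
    hSum σ I a X hX0 hX1 c φ hφ N
  have hS2 : Summable fun u : σ → ℤ =>
      (∏ ξ, φ ξ (lam a u N ξ - lam a (fun l => (w l : ℤ)) m ξ)) * X ^ (∑ l, u l) :=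
    hSum σ I a X hX0 hX1 (c + B) (fun ξ v => φ ξ (v - lam a (fun l => (w l : ℤ)) m ξ)) hThr2 N
  have hS3 : ∀ ξ, Summable fun u : σ → ℤ => (∏ ξ', Φ ξ ξ' (lam a u N ξ')) * X ^ (∑ l, u l) :=
    fun ξ => hSum σ I a X hX0 hX1 (c + B) (Φ ξ) (hThr ξ) N
  have e3 : PowerSeries.coeff N (Ser a X φ) =
      ∑' u : σ → ℤ, (∏ ξ, φ ξ (lam a u N ξ)) * X ^ (∑ l, u l) := by
    unfold Ser
    rw [PowerSeries.coeff_mk]
  have e4 : ∀ ξ, PowerSeries.coeff N (Ser a X (Φ ξ)) =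
      ∑' u : σ → ℤ, (∏ ξ', Φ ξ ξ' (lam a u N ξ')) * X ^ (∑ l, u l) := by
    intro ξ
    unfold Ser
    rw [PowerSeries.coeff_mk]
  rw [e3, ← hS1.tsum_sub hS2]
  simp only [e4]
  rw [← Summable.tsum_finsetSum (fun ξ _ => hS3 ξ)]
  apply tsum_congr
  intro u
  rw [← sub_mul, hΦ1 (fun ξ => lam a u N ξ), Finset.sum_mul]

end Pool.Newt2
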